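import Mathlib

/-!
# MP_c23e02_co: the k-th upper chromatic numbers of the real line and of the integers agree

For every array `D` of positive reals there is a `ℚ`-linear functional `f : ℝ → ℚ` which does not
vanish at the entries of `D`; after scaling, it takes integer values there. If `T'` is a colouring
of the integers for the array `|f (d i j)|`, then `x ↦ T' ⌊f x⌋` is a `D`-colouring of the line.
-/

namespace Pool.Agent.Results.MP_c23e02_co.LineEqIntegers

/-- `S` is `D`-colourable: there is a map `T` from `S` to the colours `Fin m` such that no two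
points of `S` at distance `D i j` both have the colour `j`. -/
def Colorable {k m : ℕ} (S : Set ℝ) (D : Fin k → Fin m → ℝ) : Prop :=
  ∃ T : S → Fin m, ∀ (i : Fin k) (j : Fin m) (x y : S),
    |(x : ℝ) - (y : ℝ)| = D i j → ¬ (T x = j ∧ T y = j)

/-- The `k`-th upper chromatic number of `S`: the least positive `m` such that `S` is
`D`-colourable for every `k × m` array `D` of positive reals (`⊤` if there is none). -/
noncomputable def chi (k : ℕ) (S : Set ℝ) : ℕ∞ :=
  sInf {M : ℕ∞ | ∃ m : ℕ, 0 < m ∧ M = m ∧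
    ∀ D : Fin k → Fin m → ℝ, (∀ i j, 0 < D i j) → Colorable S D}

/-- The set of integers as a subset of the line. -/
def integers : Set ℝ := Set.range (fun z : ℤ => (z : ℝ))

theorem restrict {k m : ℕ} (D : Fin k → Fin m → ℝ) (h : Colorable Set.univ D) :
    Colorable integers D := by
  obtain ⟨T, hT⟩ := h
  exact ⟨fun x => T ⟨x, Set.mem_univ _⟩, fun i j x y hxy =>
    hT i j ⟨x, Set.mem_univ _⟩ ⟨y, Set.mem_univ _⟩ hxy⟩

theorem extend {k m : ℕ}
    (h : ∀ D : Fin k → Fin m → ℝ, (∀ i j, 0 < D i j) → Colorable integers D)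
    (D : Fin k → Fin m → ℝ) (hD : ∀ i j, 0 < D i j) : Colorable Set.univ D := by
  obtain ⟨f, hf⟩ := Module.exists_dual_forall_apply_ne_zero (K := ℚ) (M := ℝ)
    (fun p : Fin k × Fin m => D p.1 p.2) (fun p => (hD p.1 p.2).ne')
  -- clear the denominators
  set N : ℕ := ∏ p : Fin k × Fin m, (f (D p.1 p.2)).den with hN
  have hNpos : 0 < N := Finset.prod_pos (fun p _ => (f (D p.1 p.2)).pos)
  have hint : ∀ i j, ∃ z : ℤ, (N : ℚ) * f (D i j) = z := by
    intro i j
    obtain ⟨c, hc⟩ : (f (D i j)).den ∣ N :=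
      Finset.dvd_prod_of_mem (fun p : Fin k × Fin m => (f (D p.1 p.2)).den)
        (Finset.mem_univ (i, j))
    refine ⟨c * (f (D i j)).num, ?_⟩
    have h1 : ((f (D i j)).den : ℚ) * f (D i j) = (f (D i j)).num := Rat.den_mul_eq_num _
    rw [hc]
    push_cast
    calc ((f (D i j)).den : ℚ) * c * f (D i j) = c * (((f (D i j)).den : ℚ) * f (D i j)) := by ring
      _ = _ := by rw [h1]
  choose z hz using hint
  have hz0 : ∀ i j, z i j ≠ 0 := by
    intro i j h0
    have h1 := hz i j
    rw [h0, Int.cast_zero] at h1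
    rcases mul_eq_zero.1 h1 with h2 | h2
    · exact hNpos.ne' (by exact_mod_cast h2)
    · exact hf (i, j) h2
  obtain ⟨T, hT⟩ := h (fun i j => |((z i j : ℤ) : ℝ)|)
    (fun i j => abs_pos.2 (by exact_mod_cast hz0 i j))
  have hmem : ∀ x : ℝ, ((⌊(N : ℚ) * f x⌋ : ℤ) : ℝ) ∈ integers := fun x => ⟨_, rfl⟩
  refine ⟨fun x => T ⟨_, hmem x⟩, ?_⟩
  intro i j x y hxy
  apply hT i j
  -- the difference of the floors
  have key : ∀ u v : ℝ, u - v = D i j → ⌊(N : ℚ) * f u⌋ = ⌊(N : ℚ) * f v⌋ + z i j := by
    intro u v huv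
    have hu : u = v + D i j := by linarith
    rw [hu, map_add, mul_add, hz i j, Int.floor_add_intCast]
  simp only
  rcases abs_eq (hD i j).le |>.1 hxy with h1 | h1
  · rw [key x y h1]
    push_cast
    congr 1
    ring
  · rw [key y x (by linarith)]
    push_cast
    rw [← abs_neg]
    congr 1
    ring

/-- For every `k ≥ 1` the `k`-th upper chromatic numbers of the real line and of the integers are
equal. -/
theorem result : ∀ k : ℕ, 0 < k → chi k Set.univ = chi k integers := by
  intro k _
  unfold chi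
  congr 1
  ext M
  constructor
  · rintro ⟨m, hm, hM, h⟩
    exact ⟨m, hm, hM, fun D hD => restrict D (h D hD)⟩
  · rintro ⟨m, hm, hM, h⟩
    exact ⟨m, hm, hM, fun D hD => extend h D hD⟩

end Pool.Agent.Results.MP_c23e02_co.LineEqIntegers
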